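import Mathlib
import Pool.Agent.X69.Domatic

/-! The domatic game: changing the first player changes the domatic game number by at most one. -/

namespace Pool.Agent.X45.DG

open Pool.Agent.X69.Domatic

section general

variable {V : Type} [Fintype V]

open Classical in
/-- number of uncoloured vertices -/
noncomputable def unc {k : ℕ} (c : V → Option (Fin k)) : ℕ :=
  (Finset.univ.filter (fun v => c v = none)).card

open Classical in
theorem unc_update {k : ℕ} (c : V → Option (Fin k)) (v : V) (i : Fin k) (hv : c v = none) :
    unc (Function.update c v (some i)) + 1 = unc c := by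
  unfold unc
  have : (Finset.univ.filter (fun w => Function.update c v (some i) w = none)) =
      (Finset.univ.filter (fun w => c w = none)).erase v := by
    ext w
    by_cases hw : w = v
    · subst hw; simp
    · simp [Function.update_of_ne hw, hw]
  rw [this]
  exact Finset.card_erase_add_one (by simp [hv])

theorem exists_of_unc {k : ℕ} (c : V → Option (Fin k)) {m : ℕ} (h : unc c = m + 1) :
    ∃ v, c v = none := by
  classical
  have : 0 < unc c := by omega
  unfold unc at this
  obtain ⟨v, hv⟩ := Finset.card_pos.mp this
  exact ⟨v, by simpa using hv⟩

theorem unc_pos {k : ℕ} (c : V → Option (Fin k)) {v : V} (h : c v = none) : 0 < unc c := by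
  classical
  unfold unc
  exact Finset.card_pos.mpr ⟨v, by simp [h]⟩

/-- the imagined class `ψ e` is contained in the real class `e` -/
def Cov {k : ℕ} (ψ : Fin k → Fin (k + 1)) (g : V → Option (Fin (k + 1)))
    (f : V → Option (Fin k)) : Prop :=
  ∀ v e, g v = some (ψ e) → f v = some e

omit [Fintype V] in
theorem dom_of_cov (H : SimpleGraph V) {k : ℕ} {ψ : Fin k → Fin (k + 1)}
    {g : V → Option (Fin (k + 1))} {f : V → Option (Fin k)} (hc : Cov ψ g f)
    (h : AllDominate H (k + 1) g) : AllDominate H k f := by
  intro i x
  obtain ⟨y, hy, hg⟩ := h (ψ i) x
  exact ⟨y, hy, hc y i hg⟩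

open Classical in
omit [Fintype V] in
theorem cov_update {k : ℕ} {ψ : Fin k → Fin (k + 1)}
    {g : V → Option (Fin (k + 1))} {f : V → Option (Fin k)} (hc : Cov ψ g f) (v : V)
    (c' : Fin (k + 1)) (e' : Fin k) (h : ∀ e, c' = ψ e → e' = e) :
    Cov ψ (Function.update g v (some c')) (Function.update f v (some e')) := by
  intro w e hw
  by_cases hwv : w = v
  · subst hwv
    simp only [Function.update_self, Option.some.injEq] at hw ⊢
    exact h e hw
  · simp only [Function.update_of_ne hwv] at hw ⊢
    exact hc w e hw

open Classical in
omit [Fintype V] in
theorem cov_real {k : ℕ} {ψ : Fin k → Fin (k + 1)}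
    {g : V → Option (Fin (k + 1))} {f : V → Option (Fin k)} (hc : Cov ψ g f) (x : V)
    (ν : Fin (k + 1)) (hν : ∀ e, ψ e ≠ ν) (hx : g x = some ν) (e' : Fin k) :
    Cov ψ g (Function.update f x (some e')) := by
  intro w e hw
  by_cases hwv : w = x
  · subst hwv
    rw [hx] at hw
    exact absurd (Option.some.inj hw).symm (hν e)
  · simp only [Function.update_of_ne hwv]
    exact hc w e hw

open Classical in
omit [Fintype V] in
theorem cov_imag {k : ℕ} {ψ : Fin k → Fin (k + 1)}
    {g : V → Option (Fin (k + 1))} {f : V → Option (Fin k)} (hc : Cov ψ g f) (x : V)
    (ν : Fin (k + 1)) (hν : ∀ e, ψ e ≠ ν) :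
    Cov ψ (Function.update g x (some ν)) f := by
  intro w e hw
  by_cases hwv : w = x
  · subst hwv
    simp only [Function.update_self, Option.some.injEq] at hw
    exact absurd hw.symm (hν e)
  · simp only [Function.update_of_ne hwv] at hw
    exact hc w e hw

theorem pick {k : ℕ} (hk : 1 ≤ k) {ψ : Fin k → Fin (k + 1)} (hψ : Function.Injective ψ)
    (c' : Fin (k + 1)) : ∃ e' : Fin k, ∀ e, c' = ψ e → e' = e := by
  classical
  by_cases h : ∃ e, c' = ψ e
  · obtain ⟨e, he⟩ := h
    exact ⟨e, fun e2 h2 => hψ (he ▸ h2)⟩
  · exact ⟨⟨0, hk⟩, fun e he => absurd ⟨e, he⟩ h⟩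

/-- The two simulation statements: in the imagined game (palette `k + 1`) the colour `ν` is
discarded. -/
theorem AB (H : SimpleGraph V) (k : ℕ) (hk : 1 ≤ k)
    (ψ : Fin k → Fin (k + 1)) (hψ : Function.Injective ψ) (ν : Fin (k + 1))
    (hν : ∀ e, ψ e ≠ ν) (m : ℕ) :
    (∀ (g : V → Option (Fin (k + 1))) (f : V → Option (Fin k)), unc g = m →
      (∀ v, g v = none ↔ f v = none) → Cov ψ g f →
      AliceWins H (k + 1) m false g → AliceWins H k m true f) ∧
    (∀ (g : V → Option (Fin (k + 1))) (f : V → Option (Fin k)) (x : V), unc g = m →
      f x = none → g x = some ν → (∀ v, v ≠ x → (g v = none ↔ f v = none)) → Cov ψ g f →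
      AliceWins H (k + 1) m false g → AliceWins H k (m + 1) false f) := by
  classical
  induction m using Nat.strong_induction_on with
  | _ m ih =>
  have hA : ∀ (g : V → Option (Fin (k + 1))) (f : V → Option (Fin k)), unc g = m →
      (∀ v, g v = none ↔ f v = none) → Cov ψ g f →
      AliceWins H (k + 1) m false g → AliceWins H k m true f := by
    intro g f hm hgf hcov h
    rcases m with _ | m'
    · exact dom_of_cov H hcov h
    · obtain ⟨x, hgx⟩ := exists_of_unc g hm
      have hfx : f x = none := (hgf x).1 hgx
      have h1 : AliceWins H (k + 1) m' true (Function.update g x (some ν)) := h x ν hgx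
      have hu1 := unc_update g x ν hgx
      rcases m' with _ | m''
      · refine ⟨x, ⟨0, hk⟩, hfx, ?_⟩
        exact dom_of_cov H (cov_update hcov x ν ⟨0, hk⟩ (fun e he => absurd he.symm (hν e))) h1
      · obtain ⟨y, c', hy, h2⟩ := h1
        have hyx : y ≠ x := by
          rintro rfl
          simp at hy
        obtain ⟨e', he'⟩ := pick hk hψ c'
        have hgy : g y = none := by simpa [Function.update_of_ne hyx] using hy
        refine ⟨y, e', (hgf y).1 hgy, ?_⟩
        have hu2 := unc_update (Function.update g x (some ν)) y c' hy
        refine (ih m'' (by omega)).2 (Function.update (Function.update g x (some ν)) y (some c'))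
          (Function.update f y (some e')) x (by omega) ?_ ?_ ?_ ?_ h2
        · rw [Function.update_of_ne hyx.symm]; exact hfx
        · rw [Function.update_of_ne hyx.symm]; simp
        · intro v hv
          by_cases hvy : v = y
          · subst hvy; simp
          · rw [Function.update_of_ne hvy, Function.update_of_ne hvy, Function.update_of_ne hv]
            exact hgf v
        · exact cov_update (cov_imag hcov x ν hν) y c' e' he'
  refine ⟨hA, ?_⟩
  intro g f x hm hfx hgx hgf hcov h
  intro z e hz
  by_cases hzx : z = x
  · subst hzx
    refine hA g (Function.update f z (some e)) hm ?_ (cov_real hcov z ν hν hgx e) h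
    intro v
    by_cases hvz : v = z
    · subst hvz; simp [hgx]
    · rw [Function.update_of_ne hvz]; exact hgf v hvz
  · have hgz : g z = none := (hgf z hzx).2 hz
    rcases m with _ | m'
    · exact absurd hm (by have := unc_pos g hgz; omega)
    · have h1 : AliceWins H (k + 1) m' true (Function.update g z (some (ψ e))) := h z (ψ e) hgz
      have hu1 := unc_update g z (ψ e) hgz
      have hcov1 : Cov ψ (Function.update g z (some (ψ e))) (Function.update f z (some e)) :=
        cov_update hcov z (ψ e) e (fun e2 h2 => hψ h2)
      rcases m' with _ | m''
      · refine ⟨x, ⟨0, hk⟩, ?_, ?_⟩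
        · rw [Function.update_of_ne (Ne.symm hzx)]; exact hfx
        · refine dom_of_cov H (cov_real hcov1 x ν hν ?_ ⟨0, hk⟩) h1
          rw [Function.update_of_ne (Ne.symm hzx)]; exact hgx
      · obtain ⟨y, c', hy, h2⟩ := h1
        have hyz : y ≠ z := by
          rintro rfl
          simp at hy
        have hgy : g y = none := by simpa [Function.update_of_ne hyz] using hy
        have hyx : y ≠ x := by
          rintro rfl
          rw [hgx] at hgy
          simp at hgy
        obtain ⟨e', he'⟩ := pick hk hψ c'
        refine ⟨y, e', ?_, ?_⟩
        · rw [Function.update_of_ne hyz]; exact (hgf y hyx).1 hgy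
        have hu2 := unc_update (Function.update g z (some (ψ e))) y c' hy
        refine (ih m'' (by omega)).2
          (Function.update (Function.update g z (some (ψ e))) y (some c'))
          (Function.update (Function.update f z (some e)) y (some e')) x (by omega) ?_ ?_ ?_ ?_ h2
        · rw [Function.update_of_ne hyx.symm, Function.update_of_ne (Ne.symm hzx)]; exact hfx
        · rw [Function.update_of_ne hyx.symm, Function.update_of_ne (Ne.symm hzx)]; exact hgx
        · intro v hv
          by_cases hvy : v = y
          · subst hvy; simp
          · rw [Function.update_of_ne hvy, Function.update_of_ne hvy]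
            by_cases hvz : v = z
            · subst hvz; simp
            · rw [Function.update_of_ne hvz, Function.update_of_ne hvz]
              exact hgf v hv
        · exact cov_update hcov1 y c' e' he'

/-- First phase of the simulation when Bob starts: Alice has one pending imagined move `y`. -/
theorem P1 (H : SimpleGraph V) (k : ℕ) (hk : 1 ≤ k) (m : ℕ) :
    ∀ (g : V → Option (Fin (k + 1))) (f : V → Option (Fin k)) (y : V) (c : Fin k), unc g = m →
      f y = none → g y = some c.castSucc → (∀ v, v ≠ y → g v = (f v).map Fin.castSucc) →
      AliceWins H (k + 1) m false g → AliceWins H k (m + 1) false f := by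
  classical
  induction m using Nat.strong_induction_on with
  | _ m ih =>
  intro g f y c hm hfy hgy hgf h
  intro z e hz
  by_cases hzy : z = y
  · subst hzy
    let ψ : Fin k → Fin (k + 1) := fun e' => if e' = c then Fin.last k else e'.castSucc
    have hψ : Function.Injective ψ := by
      intro a b hab
      simp only [ψ] at hab
      by_cases ha : a = c <;> by_cases hb : b = c
      · rw [ha, hb]
      · rw [if_pos ha, if_neg hb] at hab
        exact absurd hab.symm (Fin.castSucc_lt_last b).ne
      · rw [if_neg ha, if_pos hb] at hab
        exact absurd hab (Fin.castSucc_lt_last a).ne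
      · rw [if_neg ha, if_neg hb] at hab
        exact Fin.castSucc_injective k hab
    have hν : ∀ e', ψ e' ≠ c.castSucc := by
      intro e' he
      simp only [ψ] at he
      by_cases ha : e' = c
      · rw [if_pos ha] at he
        exact absurd he.symm (Fin.castSucc_lt_last c).ne
      · rw [if_neg ha] at he
        exact ha (Fin.castSucc_injective k he)
    refine (AB H k hk ψ hψ c.castSucc hν m).1 g (Function.update f z (some e)) hm ?_ ?_ h
    · intro v
      by_cases hv : v = z
      · subst hv; simp [hgy]
      · rw [Function.update_of_ne hv, hgf v hv]
        simp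
    · intro v e' hv'
      by_cases hv : v = z
      · subst hv
        rw [hgy] at hv'
        exact absurd (Option.some.inj hv').symm (hν e')
      · rw [Function.update_of_ne hv]
        rw [hgf v hv] at hv'
        obtain ⟨a, ha, hae⟩ := Option.map_eq_some_iff.mp hv'
        simp only [ψ] at hae
        by_cases he' : e' = c
        · rw [if_pos he'] at hae
          exact absurd hae (Fin.castSucc_lt_last a).ne
        · rw [if_neg he'] at hae
          rw [ha, Fin.castSucc_injective k hae]
  · have hgz : g z = none := by rw [hgf z hzy, hz]; rfl
    rcases m with _ | m'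
    · exact absurd hm (by have := unc_pos g hgz; omega)
    · have h1 : AliceWins H (k + 1) m' true (Function.update g z (some e.castSucc)) :=
        h z e.castSucc hgz
      have hu1 := unc_update g z e.castSucc hgz
      have hcov0 : Cov Fin.castSucc (Function.update g z (some e.castSucc))
          (Function.update (Function.update f z (some e)) y (some c)) := by
        intro v e' hv'
        by_cases hvy : v = y
        · subst hvy
          rw [Function.update_of_ne (Ne.symm hzy), hgy] at hv'
          rw [Function.update_self, Fin.castSucc_injective k (Option.some.inj hv')]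
        · rw [Function.update_of_ne hvy]
          by_cases hvz : v = z
          · subst hvz
            rw [Function.update_self] at hv' ⊢
            rw [Fin.castSucc_injective k (Option.some.inj hv')]
          · rw [Function.update_of_ne hvz] at hv' ⊢
            rw [hgf v hvy] at hv'
            obtain ⟨a, ha, hae⟩ := Option.map_eq_some_iff.mp hv'
            rw [ha, Fin.castSucc_injective k hae]
      rcases m' with _ | m''
      · refine ⟨y, c, ?_, ?_⟩
        · rw [Function.update_of_ne (Ne.symm hzy)]; exact hfy
        · exact dom_of_cov H hcov0 h1
      · obtain ⟨y2, c2, hy2, h2⟩ := h1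
        have hy2z : y2 ≠ z := by
          rintro rfl
          simp at hy2
        have hgy2 : g y2 = none := by simpa [Function.update_of_ne hy2z] using hy2
        have hy2y : y2 ≠ y := by
          rintro rfl
          rw [hgy] at hgy2
          simp at hgy2
        have hfy2 : f y2 = none := by
          have := hgf y2 hy2y
          rw [hgy2] at this
          simpa using this.symm
        refine ⟨y, c, ?_, ?_⟩
        · rw [Function.update_of_ne (Ne.symm hzy)]; exact hfy
        have hu2 := unc_update (Function.update g z (some e.castSucc)) y2 c2 hy2
        have hf' : Function.update (Function.update f z (some e)) y (some c) y2 = none := by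
          rw [Function.update_of_ne hy2y, Function.update_of_ne hy2z]; exact hfy2
        by_cases hc2 : c2 = Fin.last k
        · refine (AB H k hk Fin.castSucc (Fin.castSucc_injective k) (Fin.last k)
            (fun e' => (Fin.castSucc_lt_last e').ne) m'').2
            (Function.update (Function.update g z (some e.castSucc)) y2 (some c2))
            (Function.update (Function.update f z (some e)) y (some c)) y2 (by omega)
            hf' (by rw [Function.update_self, hc2]) ?_ ?_ h2
          · intro v hv
            rw [Function.update_of_ne hv]
            by_cases hvy : v = y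
            · subst hvy
              rw [Function.update_of_ne (Ne.symm hzy), Function.update_self, hgy]
              simp
            · rw [Function.update_of_ne hvy]
              by_cases hvz : v = z
              · subst hvz; simp
              · rw [Function.update_of_ne hvz, Function.update_of_ne hvz, hgf v hvy]
                simp
          · rw [hc2]
            exact cov_imag hcov0 y2 (Fin.last k) (fun e' => (Fin.castSucc_lt_last e').ne)
        · obtain ⟨c3, rfl⟩ := Fin.exists_castSucc_eq.mpr hc2
          refine ih m'' (by omega)
            (Function.update (Function.update g z (some e.castSucc)) y2 (some c3.castSucc))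
            (Function.update (Function.update f z (some e)) y (some c)) y2 c3 (by omega)
            hf' (by rw [Function.update_self]) ?_ h2
          intro v hv
          rw [Function.update_of_ne hv]
          by_cases hvy : v = y
          · subst hvy
            rw [Function.update_of_ne (Ne.symm hzy), Function.update_self, hgy]
            simp
          · rw [Function.update_of_ne hvy]
            by_cases hvz : v = z
            · subst hvz; simp
            · rw [Function.update_of_ne hvz, Function.update_of_ne hvz, hgf v hvy]

/-- Winning as second player with `k + 1` colours gives a win as first player with `k`. -/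
theorem BtoA (H : SimpleGraph V) (k : ℕ) (hk : 1 ≤ k) (h : BGame H (k + 1)) : AGame H k := by
  classical
  refine (AB H k hk Fin.castSucc (Fin.castSucc_injective k) (Fin.last k)
    (fun e' => (Fin.castSucc_lt_last e').ne) (Fintype.card V)).1 (fun _ => none) (fun _ => none)
    (by simp [unc]) (by simp) ?_ h
  intro v e hv
  simp at hv

/-- Winning as first player with `k + 1` colours gives a win as second player with `k`. -/
theorem AtoB [Nonempty V] (H : SimpleGraph V) (k : ℕ) (hk : 1 ≤ k) (h : AGame H (k + 1)) :
    BGame H k := by
  classical
  unfold AGame at h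
  unfold BGame
  obtain ⟨n, hn⟩ : ∃ n, Fintype.card V = n + 1 :=
    ⟨Fintype.card V - 1, by have := Fintype.card_pos (α := V); omega⟩
  rw [hn] at h ⊢
  obtain ⟨y, c, hy, h1⟩ := h
  have hu0 : unc (fun _ : V => (none : Option (Fin (k + 1)))) = n + 1 := by simp [unc, hn]
  have hu := unc_update (fun _ : V => (none : Option (Fin (k + 1)))) y c rfl
  by_cases hc : c = Fin.last k
  · refine (AB H k hk Fin.castSucc (Fin.castSucc_injective k) (Fin.last k)
      (fun e' => (Fin.castSucc_lt_last e').ne) n).2
      (Function.update (fun _ : V => (none : Option (Fin (k + 1)))) y (some c))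
      (fun _ => none) y (by omega) rfl (by rw [Function.update_self, hc]) ?_ ?_ h1
    · intro v hv
      rw [Function.update_of_ne hv]
      simp
    · rw [hc]
      refine cov_imag ?_ y (Fin.last k) (fun e' => (Fin.castSucc_lt_last e').ne)
      intro v e hv
      simp at hv
  · obtain ⟨c3, rfl⟩ := Fin.exists_castSucc_eq.mpr hc
    refine P1 H k hk n
      (Function.update (fun _ : V => (none : Option (Fin (k + 1)))) y (some c3.castSucc))
      (fun _ => none) y c3 (by omega) rfl (by rw [Function.update_self]) ?_ h1
    intro v hv
    rw [Function.update_of_ne hv]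
    simp

/-- `gamma H true` is the domatic game number when Alice moves first, `gamma H false` the one
when Bob moves first: the largest `k ≥ 1` such that Alice wins the domatic game with palette
`[k]`. -/
noncomputable def gamma (H : SimpleGraph V) (b : Bool) : ℕ :=
  sSup {k : ℕ | 1 ≤ k ∧ AliceWins H k (Fintype.card V) b (fun _ => none)}

theorem gamma_spec [Nonempty V] (H : SimpleGraph V) (b : Bool) :
    IsGreatest {k : ℕ | 1 ≤ k ∧ AliceWins H k (Fintype.card V) b (fun _ => none)}
      (gamma H b) := by
  classical
  have hne : {k : ℕ | 1 ≤ k ∧ AliceWins H k (Fintype.card V) b (fun _ => none)}.Nonempty :=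
    ⟨1, le_rfl, wins_one H _ b _ (by simp)⟩
  have hbdd : BddAbove {k : ℕ | 1 ≤ k ∧ AliceWins H k (Fintype.card V) b (fun _ => none)} :=
    ⟨Fintype.card V, fun k hk => le_card H k hk.1 b hk.2⟩
  exact ⟨Nat.sSup_mem hne hbdd, fun k hk => le_csSup hbdd hk⟩

theorem main_ineq [Nonempty V] (H : SimpleGraph V) :
    gamma H true ≤ gamma H false + 1 ∧ gamma H false ≤ gamma H true + 1 := by
  have hA := gamma_spec H true
  have hB := gamma_spec H false
  constructor
  · by_contra hcon
    push Not at hcon
    obtain ⟨k, hk⟩ : ∃ k, gamma H true = k + 1 := ⟨gamma H true - 1, by have := hA.1.1; omega⟩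
    have h1 : AGame H (k + 1) := by
      have := hA.1.2
      rw [hk] at this
      exact this
    have hk1 : 1 ≤ k := by have := hB.1.1; omega
    have := hB.2 (show k ∈ _ from ⟨hk1, AtoB H k hk1 h1⟩)
    omega
  · by_contra hcon
    push Not at hcon
    obtain ⟨k, hk⟩ : ∃ k, gamma H false = k + 1 := ⟨gamma H false - 1, by have := hB.1.1; omega⟩
    have h1 : BGame H (k + 1) := by
      have := hB.1.2
      rw [hk] at this
      exact this
    have hk1 : 1 ≤ k := by have := hA.1.1; omega
    have := hA.2 (show k ∈ _ from ⟨hk1, BtoA H k hk1 h1⟩)
    omega

end general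

end Pool.Agent.X45.DG
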